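import Pool.Agent.H499Z.NilC

set_option autoImplicit false

namespace Pool.Agent.Results.MP_734462_al.AllFields

/-- Over every field F, every nil F-algebra A of at most countable dimension admits a nil
F-algebra B of at most countable dimension that is not a homomorphic image of A. -/
theorem result :
    ∀ (F : Type) [Field F] (A : Type) [NonUnitalRing A] [Module F A]
      [IsScalarTower F A A] [SMulCommClass F A A],
      (∀ a : A, ∃ n : ℕ, (fun x : A => a * x)^[n] a = 0) →
      Module.rank F A ≤ Cardinal.aleph0 →
      ∃ (B : Type) (_ : NonUnitalRing B) (_ : Module F B) (_ : IsScalarTower F B B)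
        (_ : SMulCommClass F B B),
        (∀ b : B, ∃ n : ℕ, (fun x : B => b * x)^[n] b = 0) ∧
        Module.rank F B ≤ Cardinal.aleph0 ∧
        ∀ f : A →ₙₐ[F] B, ¬ Function.Surjective f := by
  intro F _ A _ _ _ _ h1 h2
  exact Pool.Agent.H499Z.Nil.not_universal (F := F) h1 h2

end Pool.Agent.Results.MP_734462_al.AllFields
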